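import Pool.Agent.Run7.h26.QT.Stm
import Pool.Agent.Run7.h843.C3
import Pool.Agent.Y697.JQ.BOX

/-!
# QT, piece (B): the joint count in a box for the criterion `Gd6`

After `Pool.Agent.R413.SQ.SM.t_BX` (several masks) and `Run7.h843.Cnt.box6` (reduction at the root).
-/

set_option autoImplicit false

open scoped Classical

namespace Run7.h691.QT

open Finset
open Pool.Agent.Y703.CQ (nr prs HB S_EQ c2)
open Pool.Agent.R413.SQ.BOX (Lb lb HB_sub nr_symm)
open Pool.Agent.Y687.JQ (GdM S_JLA)
open Pool.Agent.Y697.JQ (pt mem_pt sum_pt add_pt sd_sd sd_union sd_sub)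
open Run7.h843.Cnt (Gd6 Nd6 AA LN6 nd_iff6 omit_one prs_card)
open Run7.h843.Desc (f2)
open Run7.h26.QT

/-- the sum over the vertices of a mask -/
theorem sum_ms {S₁ : Finset ℕ} (T : Finset ℕ) (h : Option S₁ → ZMod 2) :
    ∑ u ∈ ms S₁ T, h u = h none + ∑ u ∈ pt S₁ T, h (some u) := by
  unfold ms
  rw [Finset.sum_insert (by simp),
    Finset.sum_image (fun a _ b _ hab => Option.some_injective _ hab)]

/-- the good labels -/
def LJ6 {ι : Type} [Fintype ι] {M : ℕ} (R : ℕ) (S₁ : Finset ℕ) (V : Fin M → Finset ℕ)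
    (β : ι → Lb S₁) : Prop :=
  LN6 S₁ β ∧ 2 * S₁.card + R ≤ Fintype.card ι ∧ ∀ i j, i ≠ j →
    2 * S₁.card + R ≤ ((univ : Finset ι).filter fun k =>
      ∑ u ∈ pt S₁ (symmDiff (V i) (V j)), (β k).2.1 u ≠ 0).card

theorem ndF_iff6 {ι : Type} [Fintype ι] {M : ℕ} {S₀ W : Finset ℕ} {V : Fin M → Finset ℕ}
    {p : ι → ℕ} (R : ℕ) (hV : ∀ i, V i ⊆ W) (hp : Function.Injective p) :
    NdF6 R W V S₀ (univ.image p) ↔ LJ6 R (S₀ ∪ W) V (fun i => lb f2 (S₀ ∪ W) (p i)) := by
  unfold NdF6 LJ6
  have h1 : (univ.image p).card = Fintype.card ι := by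
    rw [Finset.card_image_of_injective _ hp, Finset.card_univ]
  have h3 : ∀ i j : Fin M,
      ((univ.image p).filter fun q => ∑ u ∈ symmDiff (V i) (V j), nr q u ≠ 0).card =
      ((univ : Finset ι).filter fun k => ∑ u ∈ pt (S₀ ∪ W) (symmDiff (V i) (V j)),
        (lb f2 (S₀ ∪ W) (p k)).2.1 u ≠ 0).card := by
    intro i j
    have hs : symmDiff (V i) (V j) ⊆ S₀ ∪ W := by
      intro x hx
      rw [Finset.mem_symmDiff] at hx
      rw [Finset.mem_union]
      rcases hx with hx | hx
      · exact Or.inr (hV i hx.1)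
      · exact Or.inr (hV j hx.1)
    have h4 : (univ.image p).filter (fun q => ∑ u ∈ symmDiff (V i) (V j), nr q u ≠ 0) =
        ((univ : Finset ι).filter fun k => ∑ u ∈ pt (S₀ ∪ W) (symmDiff (V i) (V j)),
          (lb f2 (S₀ ∪ W) (p k)).2.1 u ≠ 0).image p := by
      ext q
      simp only [Finset.mem_filter, Finset.mem_image, Finset.mem_univ, true_and]
      constructor
      · rintro ⟨⟨k, rfl⟩, h6⟩
        refine ⟨k, ?_, rfl⟩
        rw [sum_pt hs] at h6
        exact h6
      · rintro ⟨k, h6, rfl⟩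
        refine ⟨⟨k, rfl⟩, ?_⟩
        rw [sum_pt hs]
        exact h6
    rw [h4, Finset.card_image_of_injective _ hp]
  rw [nd_iff6, h1]
  refine and_congr_right fun _ => and_congr_right fun _ => ?_
  constructor
  · intro h i j hne
    rw [← h3 i j]
    exact h i j hne
  · intro h i j hne
    rw [h3 i j]
    exact h i j hne

/-- **(B)** the joint count in a box -/
theorem t_BX6 : S_BX6 := by
  intro hGDM hEQ hJLA M ε hε
  obtain ⟨R₀, hLA⟩ := hJLA M ε hε
  refine ⟨R₀ + 3, ?_⟩
  intro V ι _ _ C X κ S₀ W hVW hκ hCX hHB hS₁ hC hdis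
  set S₁ := S₀ ∪ W with hS₁d
  set R : ℝ := 2 ^ (Fintype.card ι * Fintype.card ι) * (κ * ∏ j, (X j : ℝ)) with hR
  have hκX : 0 ≤ κ * ∏ j, (X j : ℝ) := mul_nonneg hκ (Finset.prod_nonneg fun j _ => by positivity)
  have hR0 : 0 ≤ R := mul_nonneg (by positivity) hκX
  -- facts on tuples
  have hinj : ∀ p ∈ Fintype.piFinset C, Function.Injective p := by
    intro p hp i j hij
    rw [Fintype.mem_piFinset] at hp
    by_contra hne
    have h1 := Finset.disjoint_left.1 (hdis i j hne) (hp i)
    rw [hij] at h1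
    exact h1 (hp j)
  have hd : ∀ p ∈ Fintype.piFinset C, ∀ i, p i ∉ S₁ := by
    intro p hp i
    rw [Fintype.mem_piFinset] at hp
    exact (hC i _ (hp i)).2
  have hpr : ∀ p ∈ Fintype.piFinset C, ∀ i, (p i).Prime ∧ p i % 4 = 1 := by
    intro p hp i
    rw [Fintype.mem_piFinset] at hp
    exact (hC i _ (hp i)).1
  have h2of : ∀ {q : ℕ}, q % 4 = 1 → q ≠ 2 := by
    rintro q h rfl
    omega
  have hgd : ∀ p ∈ Fintype.piFinset C, ∀ r : ι, (Gd6F V (S₀ ∪ univ.image p) ↔
      ∀ i, GdM (ms S₁ (symmDiff S₀ (V i))) (univ : Finset (Option S₁)) (univ.erase r) (AA S₁)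
      (fun (u : Option S₁) l => u.elim (f2 (p l)) fun v => nr v (p l))
      (fun k (u : Option S₁) => u.elim (f2 (p k)) fun v => nr (p k) v)
      (Pool.Agent.Y703.CQ.ext fun e : prs (univ.erase r) => nr (p e.1.1) (p e.1.2))
      (fun _ => 0) (fun _ => 0)) := by
    intro p hp r
    have hP : ∀ x ∈ univ.image p, x ∉ S₀ ∪ W := by
      intro x hx
      rw [Finset.mem_image] at hx
      obtain ⟨i, -, rfl⟩ := hx
      exact hd p hp i
    unfold Gd6F
    refine forall_congr' fun i => ?_
    rw [sd_union (hVW i) hP]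
    exact hGDM ι S₁ (symmDiff S₀ (V i)) p (sd_sub (hVW i)) (hinj p hp) (hpr p hp) hS₁ (hd p hp) r
  -- the part with given labels
  have h1 : ∀ β : ι → Lb S₁, LJ6 (R₀ + 3) S₁ V β →
      |(((Fintype.piFinset C).filter fun p => (fun i => lb f2 S₁ (p i)) = β ∧
          Gd6F V (S₀ ∪ univ.image p)).card : ℝ) -
        c2 ^ M * (((Fintype.piFinset C).filter fun p =>
          (fun i => lb f2 S₁ (p i)) = β).card : ℝ)| ≤
      ε * (((Fintype.piFinset C).filter fun p => (fun i => lb f2 S₁ (p i)) = β).card : ℝ) + R := by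
    intro β hβ
    by_cases hemp : ((Fintype.piFinset C).filter fun p => (fun i => lb f2 S₁ (p i)) = β) = ∅
    · have he2 : ((Fintype.piFinset C).filter fun p => (fun i => lb f2 S₁ (p i)) = β ∧
          Gd6F V (S₀ ∪ univ.image p)) = ∅ := by
        rw [← Finset.filter_filter, hemp, Finset.filter_empty]
      rw [he2, hemp]
      simpa using hR0
    obtain ⟨p₀, hp₀⟩ := Finset.nonempty_iff_ne_empty.2 hemp
    rw [Finset.mem_filter] at hp₀
    obtain ⟨hp₀, hp₀β⟩ := hp₀
    set C' : ι → Finset ℕ := fun i => (C i).filter fun q => lb f2 S₁ q = β i with hC'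
    have hpi : (Fintype.piFinset C).filter (fun p => (fun i => lb f2 S₁ (p i)) = β) =
        Fintype.piFinset C' := by
      ext p
      simp only [Finset.mem_filter, Fintype.mem_piFinset, hC']
      constructor
      · rintro ⟨h2, h3⟩ i
        exact ⟨h2 i, congrFun h3 i⟩
      · intro h2
        exact ⟨fun i => (h2 i).1, funext fun i => (h2 i).2⟩
    -- the root
    have hcard := hβ.2.1
    obtain ⟨r, hr⟩ := omit_one (fun (i : ι) (u : Option S₁) => u.elim (β i).2.2 (β i).2.1) hβ.1 (by
      rw [Fintype.card_option, Fintype.card_coe]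
      omega)
    have hcJ : (univ.erase r).card = Fintype.card ι - 1 := by
      rw [Finset.card_erase_of_mem (Finset.mem_univ _), Finset.card_univ]
    have hcU : (univ : Finset (Option S₁)).card = S₁.card + 1 := by
      rw [Finset.card_univ, Fintype.card_option, Fintype.card_coe]
    have hsm0 : ∀ u v : S₁, nr (u : ℕ) v = nr (v : ℕ) u := fun u v =>
      nr_symm (hS₁ u u.2).1 (hS₁ u u.2).2 (hS₁ v v.2).1 (h2of (hS₁ v v.2).2)
    have h2 := hLA (Option S₁) ι (univ : Finset (Option S₁)) (univ.erase r)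
      ⟨r, Finset.notMem_erase _ _⟩ (fun i => ms S₁ (symmDiff S₀ (V i))) (AA S₁)
      (fun (u : Option S₁) l => u.elim (β l).2.2 (β l).1)
      (fun k (u : Option S₁) => u.elim (β k).2.2 (β k).2.1) (fun _ => 0) (fun _ => 0)
      (by
        intro u _ v _
        rcases u with _ | u <;> rcases v with _ | v
        · rfl
        · rfl
        · rfl
        · exact hsm0 u v)
      (by
        intro u _ k _
        rcases u with _ | u
        · rfl
        · have h3 := congrFun hp₀β k
          simp only [Option.elim_some]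
          rw [← h3]
          exact nr_symm (hS₁ u u.2).1 (hS₁ u u.2).2 (hpr p₀ hp₀ k).1 (h2of (hpr p₀ hp₀ k).2))
      (by
        rintro w - ⟨u, hu⟩
        obtain ⟨k, hk, hk2⟩ := hr w (fun h => hu (by rw [h]; rfl))
        exact ⟨k, Finset.mem_erase.2 ⟨hk, Finset.mem_univ _⟩, hk2⟩)
      (by
        rw [hcU, hcJ]
        omega)
      (by
        intro i j hij
        rw [hcU]
        have h3 := hβ.2.2 i j hij
        have h4 : ((univ.erase r).filter fun k =>
            ∑ u ∈ ms S₁ (symmDiff S₀ (V i)),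
              (fun k (u : Option S₁) => u.elim (β k).2.2 (β k).2.1) k u +
            ∑ u ∈ ms S₁ (symmDiff S₀ (V j)),
              (fun k (u : Option S₁) => u.elim (β k).2.2 (β k).2.1) k u ≠ 0) =
            ((univ : Finset ι).filter fun k =>
              ∑ u ∈ pt S₁ (symmDiff (V i) (V j)), (β k).2.1 u ≠ 0).erase r := by
          have h5 : ∀ k : ι, ∑ u ∈ ms S₁ (symmDiff S₀ (V i)),
              (fun k (u : Option S₁) => u.elim (β k).2.2 (β k).2.1) k u +
            ∑ u ∈ ms S₁ (symmDiff S₀ (V j)),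
              (fun k (u : Option S₁) => u.elim (β k).2.2 (β k).2.1) k u =
              ∑ u ∈ pt S₁ (symmDiff (V i) (V j)), (β k).2.1 u := by
            intro k
            rw [sum_ms, sum_ms]
            simp only [Option.elim_none, Option.elim_some]
            have e1 := add_pt (S₁ := S₁) (A := symmDiff S₀ (V i)) (B := symmDiff S₀ (V j))
              (β k).2.1
            rw [sd_sd] at e1
            rw [← e1]
            have e2 := Run7.h843.Cnt.add2 (β k).2.2
            linear_combination e2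
          ext k
          rw [Finset.mem_filter, Finset.mem_erase, Finset.mem_erase, Finset.mem_filter, h5 k]
          simp only [Finset.mem_univ, true_and, and_true]
        rw [h4]
        have h6 := Finset.pred_card_le_card_erase (s := (univ : Finset ι).filter fun k =>
              ∑ u ∈ pt S₁ (symmDiff (V i) (V j)), (β k).2.1 u ≠ 0) (a := r)
        omega)
    obtain ⟨Q, hQ⟩ : ∃ Q : (prs (univ.erase r) → ZMod 2) → Prop, ∀ α, Q α ↔ ∀ i,
      GdM (ms S₁ (symmDiff S₀ (V i))) (univ : Finset (Option S₁)) (univ.erase r) (AA S₁)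
      (fun (u : Option S₁) l => u.elim (β l).2.2 (β l).1)
      (fun k (u : Option S₁) => u.elim (β k).2.2 (β k).2.1)
      (Pool.Agent.Y703.CQ.ext α) (fun _ => 0) (fun _ => 0) :=
      ⟨_, fun _ => Iff.rfl⟩
    have hHB' : HB (univ.erase r) C X κ := fun i l hil _ => hHB i l hil (Finset.mem_univ _)
    have h3 := hEQ ι (univ.erase r) C' X κ hκ
      (fun i => (Finset.card_le_card (Finset.filter_subset _ _)).trans (hCX i))
      (HB_sub hHB' fun i q => lb f2 S₁ q = β i) Q
    have h4 : ((Fintype.piFinset C).filter fun p => (fun i => lb f2 S₁ (p i)) = β ∧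
        Gd6F V (S₀ ∪ univ.image p)) = ((Fintype.piFinset C').filter fun p =>
          Q fun e => nr (p e.1.1) (p e.1.2)) := by
      rw [← hpi, Finset.filter_filter]
      refine Finset.filter_congr fun p hp => ?_
      refine and_congr_right fun hl => ?_
      rw [hgd p hp r, hQ]
      subst hl
      exact Iff.rfl
    have h5 : (((Fintype.piFinset C').card : ℕ) : ℝ) = ∏ j, ((C' j).card : ℝ) := by
      rw [Fintype.card_piFinset]
      push_cast
      rfl
    rw [h4, hpi, h5]
    have h2' : |((univ.filter Q).card : ℝ) / 2 ^ (prs (univ.erase r)).card - c2 ^ M| ≤ ε := by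
      rw [Finset.filter_congr fun α _ => hQ α]
      exact h2
    set n : ℝ := (((Fintype.piFinset C').filter fun p =>
          Q fun e => nr (p e.1.1) (p e.1.2)).card : ℝ) with hn
    set q : ℝ := ((univ.filter Q).card : ℝ) / 2 ^ (prs (univ.erase r)).card with hq
    set P : ℝ := ∏ j, ((C' j).card : ℝ) with hP
    have hP0 : 0 ≤ P := Finset.prod_nonneg fun j _ => by positivity
    have h6 : |n - c2 ^ M * P| ≤ |n - q * P| + |q - c2 ^ M| * P := by
      have h7 : n - c2 ^ M * P = (n - q * P) + (q - c2 ^ M) * P := by ring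
      have h8 : |(q - c2 ^ M) * P| = |q - c2 ^ M| * P := by rw [abs_mul, abs_of_nonneg hP0]
      rw [h7, ← h8]
      exact abs_add_le _ _
    have h7 : |q - c2 ^ M| * P ≤ ε * P := mul_le_mul_of_nonneg_right h2' hP0
    have h8 : |n - q * P| ≤ R := by
      refine h3.trans ?_
      rw [hR]
      refine mul_le_mul_of_nonneg_right ?_ hκX
      exact pow_le_pow_right₀ (by norm_num) (prs_card _)
    linarith
  -- sum over the labels
  set LL := univ.filter (fun β : ι → Lb S₁ => LJ6 (R₀ + 3) S₁ V β) with hLL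
  have hfib : ∀ T : (ι → ℕ) → Prop,
      (((Fintype.piFinset C).filter fun p =>
        NdF6 (R₀ + 3) W V S₀ (univ.image p) ∧ T p).card : ℝ) =
      ∑ β ∈ LL, (((Fintype.piFinset C).filter fun p =>
        (fun i => lb f2 S₁ (p i)) = β ∧ T p).card : ℝ) := by
    intro T
    rw [Finset.card_eq_sum_card_fiberwise (f := fun (p : ι → ℕ) (i : ι) => lb f2 S₁ (p i))
      (t := LL) (by
        intro p hp
        rw [Finset.mem_coe, Finset.mem_filter] at hp
        rw [Finset.mem_coe, hLL, Finset.mem_filter]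
        exact ⟨Finset.mem_univ _, (ndF_iff6 (R₀ + 3) hVW (hinj p hp.1)).1 hp.2.1⟩)]
    push_cast
    refine Finset.sum_congr rfl fun β hβ => ?_
    rw [hLL, Finset.mem_filter] at hβ
    congr 2
    ext p
    simp only [Finset.mem_filter]
    constructor
    · rintro ⟨⟨h3, h4, h4'⟩, h5⟩
      exact ⟨h3, h5, h4'⟩
    · rintro ⟨h3, h4, h5⟩
      refine ⟨⟨h3, ?_, h5⟩, h4⟩
      refine (ndF_iff6 (R₀ + 3) hVW (hinj p h3)).2 ?_
      rw [← hS₁d, h4]
      exact hβ.2
  have hf1 := hfib fun p => Gd6F V (S₀ ∪ univ.image p)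
  have hf2 := hfib fun _ => True
  simp only [and_true] at hf2
  rw [hf1, hf2, Finset.mul_sum, ← Finset.sum_sub_distrib]
  refine (Finset.abs_sum_le_sum_abs _ _).trans ?_
  refine (Finset.sum_le_sum fun β hβ => h1 β (Finset.mem_filter.1 hβ).2).trans ?_
  rw [Finset.sum_add_distrib, ← Finset.mul_sum, Finset.sum_const, nsmul_eq_mul]
  have h5 : ((LL.card : ℕ) : ℝ) ≤ 2 ^ ((2 * S₁.card + 1) * Fintype.card ι) := by
    have h6 : LL.card ≤ Fintype.card (ι → Lb S₁) := Finset.card_le_univ _
    rw [Fintype.card_fun, Fintype.card_prod, Fintype.card_prod, Fintype.card_fun, ZMod.card,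
      Fintype.card_coe, ← pow_succ, ← pow_add, ← pow_mul] at h6
    have h7 : (S₁.card + (S₁.card + 1)) * Fintype.card ι = (2 * S₁.card + 1) * Fintype.card ι := by
      ring
    rw [h7] at h6
    exact_mod_cast h6
  have h6 := mul_le_mul_of_nonneg_right h5 hR0
  rw [pow_add, mul_assoc]
  linarith

end Run7.h691.QT
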